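import Pool.Agent.Y246.SX.W1a

set_option autoImplicit false

/-!
Project SX, job SX-W1: replacing the fourth power of zeta by the model, mean over the shifts.
-/

namespace Pool.Agent.Y246.SX

open Finset Filter Topology MeasureTheory Complex
open Pool.Agent.Y969.GP (ff ht lam FR PX cr V mB)
open Pool.Agent.H306R2.SM (om cl Yf)
open Pool.Agent.H262R4.TM (Rng Ck)
open Pool.Agent.H262R4.TM.TTW (om_poly om_cont zeta_cont zeta_cl_bound z2_bound)
open Pool.Agent.Y969.SM

noncomputable section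

theorem t_W1 (k : ℕ) (h1 : S_FA k) (h2 : S_FB k) (h3 : Pool.Agent.Y969.GP.S_SM) : S_W1 k := by
  intro n A hA
  obtain ⟨C1, hC1, h1⟩ := h1
  obtain ⟨CS, hCS0, hCS⟩ := h3
  set K : ℝ := 331777 * (A * (576 * (1 + A) ^ 4)) ^ n with hK
  have hA0 : 0 ≤ A := by linarith
  have hK0 : 0 ≤ K := by positivity
  refine ⟨(18 * CS) ^ n * C1 + 2 * K, by positivity, ?_⟩
  filter_upwards [h1, h2, om_tail (8 + 9 * n), eventually_ge_atTop (8 + A),
    Real.tendsto_log_atTop.eventually_ge_atTop 1] with T h1T h2T htail hT8 hL1 κ hκ U hTU hUA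
  have hT0 : 0 < T := by linarith
  have hT1 : 1 ≤ T := by linarith
  have hU0 : 0 ≤ U := by linarith
  have hκ0 : (0:ℝ) < κ := lt_of_lt_of_le (by positivity) hκ.1
  have hδ : 0 < (κ:ℝ) / T := by positivity
  obtain ⟨iD, iF, iX, mD, mF, mX⟩ := h1T κ hκ
  obtain ⟨cF, -, bF⟩ := h2T
  set w : ℝ → ℝ := om κ (κ / T) with hw
  set D : ℝ → ℝ := fun t => |Xz t ^ 4 - F0 k T t| with hD
  have hDc : Continuous D := ((Xz_cont.pow 4).sub cF).abs
  have hD0 : ∀ t, 0 ≤ D t := fun t => abs_nonneg _
  have hX0 : ∀ t, 0 ≤ Xz t ^ 4 := fun t => by have := norm_nonneg (riemannZeta (cl t)); unfold Xz; positivity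
  have hDb : ∀ t, 0 ≤ t → D t ≤ (331776 + T ^ 3) * (1 + t) ^ 8 := by
    intro t ht
    have a1 := Xz_bd ht
    have a2 := bF t ht
    have a3 : (1 + t) ^ 4 ≤ (1 + t) ^ 8 := pow_le_pow_right₀ (by linarith) (by norm_num)
    have a4 : D t ≤ Xz t ^ 4 + |F0 k T t| := by
      have := abs_sub (Xz t ^ 4) (F0 k T t)
      rwa [abs_of_nonneg (hX0 t)] at this
    have a5 : T ^ 3 * (1 + t) ^ 4 ≤ T ^ 3 * (1 + t) ^ 8 := mul_le_mul_of_nonneg_left a3 (by positivity)
    linarith
  -- bounds for the integrands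
  have hP : ∀ (F : ℝ → ℝ) (B : ℝ) (N : ℕ), 0 ≤ B → Continuous F →
      (∀ t, 0 ≤ t → |F t| ≤ B * (1 + t) ^ N) → ∀ c : Fin n → ℝ, (∀ j, c j ∈ Set.Icc 0 U) →
      IntegrableOn (fun t => w t * (F t * ∏ j, ff (t + c j))) (Set.Ioi 0) := by
    intro F B N hB hF hFb c hc
    have hc1 : Continuous fun t : ℝ => ∏ j, ff (t + c j) :=
      continuous_finsetProd _ fun j _ => ff_cont.comp (continuous_id.add continuous_const)
    refine intpoly κ (N + 4 * n) (B := B * (576 * (1 + U) ^ 4) ^ n) hδ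
      (fun t => F t * ∏ j, ff (t + c j)) (hF.mul hc1) fun t ht => ?_
    · rw [abs_mul, abs_of_nonneg (prod_nn t c), pow_add]
      calc |F t| * ∏ j, ff (t + c j) ≤ (B * (1 + t) ^ N) *
            ((576 * (1 + U) ^ 4) ^ n * (1 + t) ^ (4 * n)) :=
            mul_le_mul (hFb t ht) (prod_bd hU0 ht c hc) (prod_nn t c) (by positivity)
        _ = _ := by ring
  -- the product measure
  have hprod : Integrable (fun z : (Fin n → ℝ) × ℝ => w z.2 * (D z.2 * ∏ j, ff (z.2 + z.1 j)))
      ((mB n 0 U).prod (volume.restrict (Set.Ioi 0))) := by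
    have g0 := om_poly κ (8 + 4 * n) hδ
    have g1 := Integrable.const_mul g0 ((331776 + T ^ 3) * (576 * (1 + U) ^ 4) ^ n)
    have g2 := g1.comp_snd (mB n 0 U)
    refine Integrable.mono' g2 ?_ ?_
    · have q1 : Continuous fun z : (Fin n → ℝ) × ℝ => w z.2 := (om_cont κ _).comp continuous_snd
      have q2 : Continuous fun z : (Fin n → ℝ) × ℝ => D z.2 := hDc.comp continuous_snd
      exact (q1.mul (q2.mul prod_cont)).aestronglyMeasurable
    · rw [mB_eq, Measure.prod_restrict]
      refine (ae_restrict_iff' ((box_ms n U).prod measurableSet_Ioi)).mpr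
        (Eventually.of_forall fun z hz => ?_)
      have hz1 : ∀ j, z.1 j ∈ Set.Icc 0 U := fun j => hz.1 j (Set.mem_univ j)
      have hz2 : 0 ≤ z.2 := le_of_lt hz.2
      have b1 := om_nn κ hδ hz2
      have b2 := prod_nn z.2 z.1
      rw [Real.norm_eq_abs, abs_of_nonneg (mul_nonneg b1 (mul_nonneg (hD0 _) b2))]
      calc w z.2 * (D z.2 * ∏ j, ff (z.2 + z.1 j)) ≤ w z.2 * (((331776 + T ^ 3) * (1 + z.2) ^ 8) *
            ((576 * (1 + U) ^ 4) ^ n * (1 + z.2) ^ (4 * n))) := by
            apply mul_le_mul_of_nonneg_left _ b1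
            exact mul_le_mul (hDb _ hz2) (prod_bd hU0 hz2 _ hz1) b2 (by positivity)
        _ = _ := by rw [pow_add]; ring
  -- step 1: the difference of the integrals
  have step1 : ∫ c, |(∫ t in Set.Ioi (0:ℝ), om κ (κ / T) t * (Xz t ^ 4 * ∏ j, ff (t + c j))) -
      ∫ t in Set.Ioi (0:ℝ), om κ (κ / T) t * (F0 k T t * ∏ j, ff (t + c j))| ∂(mB n 0 U) ≤
      ∫ c, (∫ t in Set.Ioi (0:ℝ), w t * (D t * ∏ j, ff (t + c j))) ∂(mB n 0 U) := by
    refine integral_mono_of_nonneg (Eventually.of_forall fun c => abs_nonneg _)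
      hprod.integral_prod_left ?_
    rw [mB_eq]
    refine (ae_restrict_iff' (box_ms n U)).mpr (Eventually.of_forall fun c hc => ?_)
    have hc' : ∀ j, c j ∈ Set.Icc 0 U := fun j => hc j (Set.mem_univ j)
    have i1 := hP (fun t => Xz t ^ 4) 331776 8 (by norm_num) (Xz_cont.pow 4) (fun t ht => by
      rw [abs_of_nonneg (hX0 t)]
      exact Xz_bd ht) c hc'
    have i2 := hP (fun t => F0 k T t) (T ^ 3) 4 (by positivity) cF bF c hc'
    show |(∫ t in Set.Ioi (0:ℝ), w t * (Xz t ^ 4 * ∏ j, ff (t + c j))) -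
      ∫ t in Set.Ioi (0:ℝ), w t * (F0 k T t * ∏ j, ff (t + c j))| ≤
      ∫ t in Set.Ioi (0:ℝ), w t * (D t * ∏ j, ff (t + c j))
    rw [← integral_sub i1 i2]
    refine (abs_integral_le_integral_abs).trans (le_of_eq ?_)
    refine setIntegral_congr_fun measurableSet_Ioi fun t ht => ?_
    have ht0 : 0 ≤ t := le_of_lt ht
    show |w t * (Xz t ^ 4 * ∏ j, ff (t + c j)) - w t * (F0 k T t * ∏ j, ff (t + c j))| =
      w t * (D t * ∏ j, ff (t + c j))
    rw [← mul_sub, ← sub_mul, abs_mul, abs_mul, abs_of_nonneg (om_nn κ hδ ht0),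
      abs_of_nonneg (prod_nn t c)]
  -- step 2: Fubini
  have step2 : ∫ c, (∫ t in Set.Ioi (0:ℝ), w t * (D t * ∏ j, ff (t + c j))) ∂(mB n 0 U) =
      ∫ t in Set.Ioi (0:ℝ), w t * (D t * hh U t ^ n) := by
    rw [integral_integral_swap hprod]
    refine integral_congr_ae (Eventually.of_forall fun t => ?_)
    show ∫ c, w t * (D t * ∏ j, ff (t + c j)) ∂(mB n 0 U) = w t * (D t * hh U t ^ n)
    rw [integral_const_mul, integral_const_mul]
    congr 2
    unfold mB
    rw [integral_fintype_prod_eq_prod (fun (_ : Fin n) (x : ℝ) => ff (t + x)), Finset.prod_const,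
      Finset.card_univ, Fintype.card_fin]
    rfl
  -- step 3: the bound
  have j1 : IntegrableOn (fun t => om κ (κ / T / 4) t) (Set.Ioi 0) := om_int0 κ (by positivity)
  have j2 : IntegrableOn (fun t => om κ (4 * (κ / T)) t) (Set.Ioi 0) := om_int0 κ (by positivity)
  set M : ℝ := 18 * CS * U * Real.log T with hM
  have hM0 : 0 ≤ M := by positivity
  have hTm : T ^ (-10 : ℝ) ≤ 1 := Real.rpow_le_one_of_one_le_of_nonpos hT1 (by norm_num)
  have hTm0 : 0 ≤ T ^ (-10 : ℝ) := by positivity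
  have step3 : ∫ t in Set.Ioi (0:ℝ), w t * (D t * hh U t ^ n) ≤
      ∫ t in Set.Ioi (0:ℝ), (M ^ n * (w t * D t) + K * T ^ (-10 : ℝ) *
        (om κ (κ / T / 4) t + om κ (4 * (κ / T)) t)) := by
    refine integral_mono_of_nonneg ?_ ((iD.const_mul _).add ((j1.add j2).const_mul _)) ?_
    · refine (ae_restrict_iff' measurableSet_Ioi).mpr (Eventually.of_forall fun t ht => ?_)
      have ht0 : 0 ≤ t := le_of_lt ht
      exact mul_nonneg (om_nn κ hδ ht0) (mul_nonneg (hD0 t) (pow_nonneg (hh_nn U t) n))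
    · refine (ae_restrict_iff' measurableSet_Ioi).mpr (Eventually.of_forall fun t ht => ?_)
      have ht0' : 0 < t := ht
      have ht0 : 0 ≤ t := le_of_lt ht
      have b1 : 0 ≤ w t := om_nn κ hδ ht0
      have b2 : 0 ≤ om κ (κ / T / 4) t := om_nn κ (by positivity) ht0
      have b3 : 0 ≤ om κ (4 * (κ / T)) t := om_nn κ (by positivity) ht0
      show w t * (D t * hh U t ^ n) ≤ M ^ n * (w t * D t) + K * T ^ (-10 : ℝ) *
        (om κ (κ / T / 4) t + om κ (4 * (κ / T)) t)
      by_cases hcase : t ≤ 8 * T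
      · have h5 := hh_main hCS0 hCS hA hT8 hTU hUA ht0 hcase
        have h6 := pow_le_pow_left₀ (hh_nn U t) h5 n
        have h7 : w t * (D t * hh U t ^ n) ≤ M ^ n * (w t * D t) := by
          calc w t * (D t * hh U t ^ n) = (w t * D t) * hh U t ^ n := by ring
            _ ≤ (w t * D t) * M ^ n := mul_le_mul_of_nonneg_left h6 (mul_nonneg b1 (hD0 t))
            _ = _ := by ring
        have h8 : 0 ≤ K * T ^ (-10 : ℝ) * (om κ (κ / T / 4) t + om κ (4 * (κ / T)) t) := by
          positivity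
        linarith
      · push Not at hcase
        have hTt : T ≤ 1 + t := by linarith
        have hUt : U ≤ A * (1 + t) := hUA.trans (mul_le_mul_of_nonneg_left hTt (by linarith))
        have h5 : hh U t ≤ A * (576 * (1 + A) ^ 4) * (1 + t) ^ 9 := by
          refine (hh_crude hU0 ht0).trans ?_
          have c1 : 1 + U ≤ (1 + A) * (1 + t) := by nlinarith
          have c2 := pow_le_pow_left₀ (by linarith) c1 4
          calc U * (576 * (1 + U) ^ 4 * (1 + t) ^ 4) ≤
              (A * (1 + t)) * (576 * ((1 + A) * (1 + t)) ^ 4 * (1 + t) ^ 4) := by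
                apply mul_le_mul hUt _ (by positivity) (by positivity)
                apply mul_le_mul_of_nonneg_right _ (by positivity)
                linarith
            _ = _ := by ring
        have h6 := pow_le_pow_left₀ (hh_nn U t) h5 n
        have h7 : D t ≤ 331777 * (1 + t) ^ 8 := by
          have a1 := Xz_bd ht0
          have a2 := bF t ht0
          have a4 : D t ≤ Xz t ^ 4 + |F0 k T t| := by
            have := abs_sub (Xz t ^ 4) (F0 k T t)
            rwa [abs_of_nonneg (hX0 t)] at this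
          have a5 : T ^ 3 * (1 + t) ^ 4 ≤ (1 + t) ^ 8 := by
            have e1 := pow_le_pow_left₀ hT0.le hTt 3
            calc T ^ 3 * (1 + t) ^ 4 ≤ (1 + t) ^ 3 * (1 + t) ^ 4 :=
                  mul_le_mul_of_nonneg_right e1 (by positivity)
              _ = (1 + t) ^ 7 := by ring
              _ ≤ (1 + t) ^ 8 := pow_le_pow_right₀ (by linarith) (by norm_num)
          linarith
        have h8 := htail κ hκ t ht0' (fun h => absurd h.2 (not_le.2 hcase))
        have h9 : w t * (D t * hh U t ^ n) ≤ K * (w t * (1 + t) ^ (8 + 9 * n)) := by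
          calc w t * (D t * hh U t ^ n) ≤ w t * ((331777 * (1 + t) ^ 8) *
                (A * (576 * (1 + A) ^ 4) * (1 + t) ^ 9) ^ n) := by
                apply mul_le_mul_of_nonneg_left _ b1
                exact mul_le_mul h7 h6 (pow_nonneg (hh_nn U t) n) (by positivity)
            _ = K * (w t * (1 + t) ^ (8 + 9 * n)) := by
                rw [hK, mul_pow, ← pow_mul, pow_add]; ring
        have h10 : 0 ≤ M ^ n * (w t * D t) :=
          mul_nonneg (pow_nonneg hM0 n) (mul_nonneg b1 (hD0 t))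
        have h11 := mul_le_mul_of_nonneg_left h8 hK0
        calc w t * (D t * hh U t ^ n) ≤ K * (w t * (1 + t) ^ (8 + 9 * n)) := h9
          _ ≤ K * (T ^ (-10 : ℝ) * (om κ (κ / T / 4) t + om κ (4 * (κ / T)) t)) := h11
          _ ≤ _ := by
              rw [← mul_assoc]
              linarith
  have step4 : ∫ t in Set.Ioi (0:ℝ), (M ^ n * (w t * D t) + K * T ^ (-10 : ℝ) *
        (om κ (κ / T / 4) t + om κ (4 * (κ / T)) t)) =
      M ^ n * (∫ t in Set.Ioi (0:ℝ), w t * D t) + K * T ^ (-10 : ℝ) * 2 := by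
    have e1 := integral_add (iD.const_mul (M ^ n)) ((j1.add j2).const_mul (K * T ^ (-10 : ℝ)))
    have e2 := integral_add j1 j2
    rw [om_mass κ (by positivity), om_mass κ (by positivity)] at e2
    rw [integral_const_mul, integral_const_mul] at e1
    have e3 : (∫ t in Set.Ioi (0:ℝ), ((fun t => om κ (κ / T / 4) t) +
        fun t => om κ (4 * (κ / T)) t) t) = 2 := by
      refine Eq.trans e2 (by norm_num)
    rw [e3] at e1
    exact e1
  have hlogp : (1:ℝ) ≤ U ^ n * Real.log T ^ (n + 3) :=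
    one_le_mul_of_one_le_of_one_le (one_le_pow₀ (by linarith)) (one_le_pow₀ hL1)
  calc _ ≤ _ := step1
    _ = _ := step2
    _ ≤ _ := step3
    _ = _ := step4
    _ ≤ M ^ n * (C1 * Real.log T ^ 3) + K * 1 * 2 := by
        apply add_le_add
        · exact mul_le_mul_of_nonneg_left mD (pow_nonneg hM0 n)
        · apply mul_le_mul_of_nonneg_right _ (by norm_num)
          exact mul_le_mul_of_nonneg_left hTm hK0
    _ ≤ M ^ n * (C1 * Real.log T ^ 3) + (2 * K) * (U ^ n * Real.log T ^ (n + 3)) := by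
        have := mul_le_mul_of_nonneg_left hlogp (by positivity : 0 ≤ 2 * K)
        linarith
    _ = _ := by
        rw [hM, mul_pow, mul_pow]
        ring

end

end Pool.Agent.Y246.SX
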