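import Pool.Agent.Y969.SM.Stm
import Pool.Agent.H262R4.TM.TW

set_option autoImplicit false

/-!
Project SX, job SX-W1: replacing the fourth power of zeta by the model, mean over the shifts.
(`om_tail` after `Pool/Agent/TH806/Om.lean`.)
-/

namespace Pool.Agent.Y246.SX

open Finset Filter Topology MeasureTheory Complex
open Pool.Agent.Y969.GP (ff ht lam FR PX cr V mB)
open Pool.Agent.H306R2.SM (om cl Yf)
open Pool.Agent.H262R4.TM (Rng Ck)
open Pool.Agent.H262R4.TM.TTW (om_poly om_cont zeta_cont zeta_cl_bound z2_bound)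
open Pool.Agent.Y969.SM

noncomputable section

lemma om_nn (k : ℕ) {δ t : ℝ} (hδ : 0 < δ) (ht : 0 ≤ t) : 0 ≤ om k δ t := by unfold om; positivity

lemma om_int0 (k : ℕ) {δ : ℝ} (hδ : 0 < δ) : IntegrableOn (fun t : ℝ => om k δ t) (Set.Ioi 0) := by
  have := om_poly k 0 hδ
  simpa using this

lemma om_mass (k : ℕ) {δ : ℝ} (hδ : 0 < δ) : ∫ t in Set.Ioi (0:ℝ), om k δ t = 1 := by
  have h := Real.integral_rpow_mul_exp_neg_mul_Ioi (a := (k : ℝ) + 1) (r := δ) (by positivity) hδ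
  have e1 : ∀ t ∈ Set.Ioi (0:ℝ), om k δ t =
      δ ^ (k + 1) / (k.factorial : ℝ) * (t ^ ((k : ℝ) + 1 - 1) * Real.exp (-(δ * t))) := by
    intro t _
    unfold om
    rw [add_sub_cancel_right, Real.rpow_natCast]
    ring
  rw [setIntegral_congr_fun measurableSet_Ioi e1, integral_const_mul, h, Real.Gamma_nat_eq_factorial,
    show ((k : ℝ) + 1) = ((k + 1 : ℕ) : ℝ) by push_cast; ring, Real.rpow_natCast]
  have hk : (k.factorial : ℝ) ≠ 0 := by exact_mod_cast Nat.factorial_ne_zero k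
  have e2 : δ ^ (k + 1) * (1 / δ) ^ (k + 1) = 1 := by
    rw [← mul_pow, mul_one_div_cancel hδ.ne', one_pow]
  calc δ ^ (k + 1) / (k.factorial : ℝ) * ((1 / δ) ^ (k + 1) * (k.factorial : ℝ)) =
      δ ^ (k + 1) * (1 / δ) ^ (k + 1) * ((k.factorial : ℝ) / (k.factorial : ℝ)) := by ring
    _ = 1 := by rw [e2, div_self hk, one_mul]

/-- tails -/
theorem om_tail (A : ℕ) : ∀ᶠ T : ℝ in atTop, ∀ κ : ℕ, Rng T κ → ∀ t : ℝ, 0 < t → t ∉ Set.Ioc (T / 8) (8 * T) →
    om κ (κ / T) t * (1 + t) ^ A ≤ T ^ (-10 : ℝ) * (om κ (κ / T / 4) t + om κ (4 * (κ / T)) t) := by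
  have hlog := Real.tendsto_log_atTop
  filter_upwards [eventually_gt_atTop (8:ℝ), hlog.eventually_ge_atTop ((A:ℝ) + 20),
    eventually_ge_atTop (8 * (A.factorial : ℝ) * 3 ^ A)] with T hT8 hL hTA κ hκ t ht0 ht
  have hT0 : 0 < T := by linarith
  set L := Real.log T with hLd
  have hL20 : 20 ≤ L := by have : (0:ℝ) ≤ A := Nat.cast_nonneg _; linarith
  have hκL : L ^ 2 ≤ κ := hκ.1
  have hκ4 : (κ:ℝ) ≤ 4 * L ^ 2 := hκ.2
  have hκ0 : (0:ℝ) < κ := lt_of_lt_of_le (by positivity) hκL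
  set δ : ℝ := κ / T with hδd
  have hδ : 0 < δ := by positivity
  have hδT : δ * T = κ := by rw [hδd]; field_simp
  have hexp : Real.exp (-(κ:ℝ)) * (8 * (A.factorial : ℝ) * 3 ^ A * T ^ A) ≤ T ^ (-10 : ℝ) := by
    have h1 : Real.exp (-(κ:ℝ)) ≤ Real.exp (-(L * L)) := Real.exp_le_exp.mpr (by nlinarith)
    have h2 : T ^ A = Real.exp (A * L) := by rw [Real.exp_nat_mul, hLd, Real.exp_log hT0]
    have h3 : T ^ (-10 : ℝ) = Real.exp (-10 * L) := by rw [Real.rpow_def_of_pos hT0, ← hLd]; congr 1; ring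
    have h4 : (8 * (A.factorial : ℝ) * 3 ^ A) ≤ Real.exp L := by rw [hLd, Real.exp_log hT0]; exact hTA
    calc _ ≤ Real.exp (-(L * L)) * (Real.exp L * Real.exp (A * L)) := by rw [h2]; gcongr
      _ = Real.exp (-(L * L) + (L + A * L)) := by rw [Real.exp_add, Real.exp_add]
      _ ≤ Real.exp (-10 * L) := Real.exp_le_exp.mpr (by nlinarith)
      _ = _ := h3.symm
  rw [Set.mem_Ioc, not_and_or] at ht
  have hpos1 : 0 ≤ om κ (δ / 4) t := om_nn κ (by positivity) ht0.le
  have hpos2 : 0 ≤ om κ (4 * δ) t := om_nn κ (by positivity) ht0.le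
  have hT10 : 0 ≤ T ^ (-10 : ℝ) := by positivity
  have hfac : (1:ℝ) ≤ (A.factorial : ℝ) := by exact_mod_cast Nat.factorial_pos A
  rcases ht with h | h
  · push Not at h
    have e1 : om κ δ t = (1 / 4) ^ (κ + 1) * Real.exp (3 * δ * t) * om κ (4 * δ) t := by
      unfold om
      have : Real.exp (-(δ * t)) = Real.exp (3 * δ * t) * Real.exp (-(4 * δ * t)) := by
        rw [← Real.exp_add]; congr 1; ring
      rw [this, mul_pow]
      have h4 : ((1:ℝ) / 4) ^ (κ + 1) * 4 ^ (κ + 1) = 1 := by rw [← mul_pow]; norm_num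
      calc δ ^ (κ + 1) * t ^ κ * (Real.exp (3 * δ * t) * Real.exp (-(4 * δ * t))) / (κ.factorial : ℝ) =
          (((1:ℝ) / 4) ^ (κ + 1) * 4 ^ (κ + 1)) * (δ ^ (κ + 1) * t ^ κ * (Real.exp (3 * δ * t) *
            Real.exp (-(4 * δ * t))) / (κ.factorial : ℝ)) := by rw [h4, one_mul]
        _ = _ := by ring
    have h5 : Real.exp (3 * δ * t) ≤ Real.exp (3 / 8 * κ) := by
      apply Real.exp_le_exp.mpr
      have : δ * t ≤ δ * (T / 8) := mul_le_mul_of_nonneg_left h hδ.le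
      nlinarith
    have h6 : ((1:ℝ) / 4) ^ (κ + 1) ≤ Real.exp (-(11 / 8 * κ)) := by
      have h7 : ((1:ℝ) / 4) ≤ Real.exp (-(11 / 8)) := by
        rw [Real.exp_neg, one_div]
        refine inv_anti₀ (Real.exp_pos _) ?_
        have h8 : Real.exp (11 / 8) = Real.exp 1 * Real.exp (3 / 8) := by rw [← Real.exp_add]; norm_num
        have h9 : Real.exp (3 / 8) ≤ 1.456 := by
          have := Real.exp_bound' (x := 3 / 8) (by norm_num) (by norm_num) (n := 4) (by norm_num)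
          norm_num [Finset.sum_range_succ, Nat.factorial] at this
          linarith
        rw [h8]
        have := Real.exp_one_lt_d9
        nlinarith [Real.exp_pos (3/8)]
      calc ((1:ℝ) / 4) ^ (κ + 1) ≤ ((1:ℝ) / 4) ^ κ := pow_le_pow_of_le_one (by norm_num) (by norm_num) (by omega)
        _ ≤ Real.exp (-(11 / 8)) ^ κ := by gcongr
        _ = _ := by rw [← Real.exp_nat_mul]; congr 1; ring
    have h7 : (1 + t) ^ A ≤ T ^ A := by gcongr; linarith
    rw [e1]
    calc (1 / 4) ^ (κ + 1) * Real.exp (3 * δ * t) * om κ (4 * δ) t * (1 + t) ^ A ≤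
        Real.exp (-(11 / 8 * κ)) * Real.exp (3 / 8 * κ) * om κ (4 * δ) t * T ^ A := by gcongr
      _ = (Real.exp (-(κ:ℝ)) * T ^ A) * om κ (4 * δ) t := by
          rw [← Real.exp_add]
          have : -(11 / 8 * (κ:ℝ)) + 3 / 8 * κ = -κ := by ring
          rw [this]; ring
      _ ≤ T ^ (-10 : ℝ) * om κ (4 * δ) t := by
          refine mul_le_mul_of_nonneg_right (le_trans ?_ hexp) hpos2
          have h8 : (1:ℝ) ≤ 8 * (A.factorial : ℝ) * 3 ^ A := by
            have : (1:ℝ) ≤ 3 ^ A := one_le_pow₀ (by norm_num)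
            nlinarith
          have h9 : 0 ≤ Real.exp (-(κ:ℝ)) * T ^ A := by positivity
          nlinarith
      _ ≤ _ := by
          refine mul_le_mul_of_nonneg_left ?_ hT10
          linarith
  · push Not at h
    have e1 : om κ δ t = 4 ^ (κ + 1) * Real.exp (-(3 / 4 * δ * t)) * om κ (δ / 4) t := by
      unfold om
      have : Real.exp (-(δ * t)) = Real.exp (-(3 / 4 * δ * t)) * Real.exp (-(δ / 4 * t)) := by
        rw [← Real.exp_add]; congr 1; ring
      rw [this]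
      have h4 : (δ / 4) ^ (κ + 1) * 4 ^ (κ + 1) = δ ^ (κ + 1) := by rw [← mul_pow]; congr 1; ring
      rw [← h4]; ring
    have h2 : (1 + t) ^ A ≤ (A.factorial : ℝ) * (3 * T) ^ A * Real.exp (3 / 8 * δ * (1 + t)) := by
      have h3 := Real.pow_div_factorial_le_exp (3 / 8 * δ * (1 + t)) (by positivity) A
      rw [div_le_iff₀ (by positivity)] at h3
      have h4 : (3 * T) * (3 / 8 * δ) ≥ 1 := by
        have h5 : (3 * T) * (3 / 8 * δ) = 9 / 8 * κ := by rw [← hδT]; ring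
        rw [h5]; nlinarith
      have h5 : (1 + t) ^ A ≤ (3 * T) ^ A * (3 / 8 * δ * (1 + t)) ^ A := by
        rw [← mul_pow]
        refine pow_le_pow_left₀ (by positivity) ?_ A
        calc (1 + t) = 1 * (1 + t) := (one_mul _).symm
          _ ≤ ((3 * T) * (3 / 8 * δ)) * (1 + t) := mul_le_mul_of_nonneg_right h4 (by positivity)
          _ = _ := by ring
      calc (1 + t) ^ A ≤ (3 * T) ^ A * (3 / 8 * δ * (1 + t)) ^ A := h5
        _ ≤ (3 * T) ^ A * (Real.exp (3 / 8 * δ * (1 + t)) * (A.factorial : ℝ)) := by gcongr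
        _ = _ := by ring
    have hδ1 : δ ≤ 1 := by
      rw [hδd, div_le_one hT0]
      have h6 : L ≤ 4 * Real.sqrt (Real.sqrt T) := by
        have h7 := Real.add_one_le_exp (L / 4)
        have h8 : Real.exp (L / 4) = Real.sqrt (Real.sqrt T) := by
          rw [Real.sqrt_eq_rpow, Real.sqrt_eq_rpow, ← Real.rpow_mul hT0.le, Real.rpow_def_of_pos hT0, ← hLd]
          congr 1; ring
        rw [h8] at h7; linarith
      have h9 : κ ≤ Real.exp L := by
        refine hκ4.trans ?_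
        -- 4 L^2 ≤ exp L for L ≥ 20
        have h10 := Real.pow_div_factorial_le_exp L (by linarith) 4
        rw [div_le_iff₀ (by positivity)] at h10
        norm_num [Nat.factorial] at h10
        have h12 : L ^ 2 ≥ 400 := by nlinarith
        have h11 : L ^ 4 ≥ 400 * L ^ 2 := by
          have : L ^ 4 = L ^ 2 * L ^ 2 := by ring
          rw [this]; exact mul_le_mul_of_nonneg_right h12 (sq_nonneg L)
        nlinarith [sq_nonneg L]
      rwa [hLd, Real.exp_log hT0] at h9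
    have h3 : Real.exp (-(3 / 4 * δ * t)) * Real.exp (3 / 8 * δ * (1 + t)) ≤ 2 * Real.exp (-(3 * κ)) := by
      rw [← Real.exp_add]
      have h4 : δ * (8 * T) ≤ δ * t := mul_le_mul_of_nonneg_left h.le hδ.le
      have h5 : -(3 / 4 * δ * t) + 3 / 8 * δ * (1 + t) ≤ 1 / 2 + -(3 * κ) := by nlinarith
      refine (Real.exp_le_exp.mpr h5).trans ?_
      rw [Real.exp_add]
      have h6 : Real.exp (1 / 2) ≤ 2 := by
        have e2 : Real.exp (1 / 2) ^ 2 = Real.exp 1 := by rw [← Real.exp_nat_mul]; norm_num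
        have := Real.exp_one_lt_d9
        nlinarith [Real.exp_pos (1/2)]
      exact mul_le_mul_of_nonneg_right h6 (Real.exp_pos _).le
    have h4 : (4:ℝ) ^ (κ + 1) ≤ 4 * Real.exp (2 * κ) := by
      rw [pow_succ, mul_comm]
      have h5 : (4:ℝ) ≤ Real.exp 2 := by
        have e2 : Real.exp 2 = Real.exp 1 ^ 2 := by rw [← Real.exp_nat_mul]; norm_num
        have := Real.exp_one_gt_d9
        rw [e2]; nlinarith
      have h6 : (4:ℝ) ^ κ ≤ Real.exp (2 * κ) := by
        calc (4:ℝ) ^ κ ≤ Real.exp 2 ^ κ := by gcongr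
          _ = _ := by rw [← Real.exp_nat_mul]; congr 1; ring
      linarith
    rw [e1]
    calc 4 ^ (κ + 1) * Real.exp (-(3 / 4 * δ * t)) * om κ (δ / 4) t * (1 + t) ^ A ≤
        4 ^ (κ + 1) * Real.exp (-(3 / 4 * δ * t)) * om κ (δ / 4) t *
          ((A.factorial : ℝ) * (3 * T) ^ A * Real.exp (3 / 8 * δ * (1 + t))) := by gcongr
      _ = 4 ^ (κ + 1) * (Real.exp (-(3 / 4 * δ * t)) * Real.exp (3 / 8 * δ * (1 + t))) *
          ((A.factorial : ℝ) * (3 * T) ^ A) * om κ (δ / 4) t := by ring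
      _ ≤ (4 * Real.exp (2 * κ)) * (2 * Real.exp (-(3 * κ))) * ((A.factorial : ℝ) * (3 * T) ^ A) * om κ (δ / 4) t := by
          gcongr
      _ = (Real.exp (-(κ:ℝ)) * (8 * (A.factorial : ℝ) * 3 ^ A * T ^ A)) * om κ (δ / 4) t := by
          have : Real.exp (-(κ:ℝ)) = Real.exp (2 * κ) * Real.exp (-(3 * κ)) := by rw [← Real.exp_add]; congr 1; ring
          rw [this, mul_pow]; ring
      _ ≤ T ^ (-10 : ℝ) * om κ (δ / 4) t := mul_le_mul_of_nonneg_right hexp hpos1
      _ ≤ _ := by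
          refine mul_le_mul_of_nonneg_left ?_ hT10
          linarith


/-! ### elementary bounds -/

lemma ff_eq (u : ℝ) : ff u = ‖riemannZeta (cl u)‖ ^ 2 := by
  unfold ff cl
  rw [mul_comm I]

lemma ff_cont : Continuous ff := by
  have h : ff = fun u => ‖riemannZeta (cl u)‖ ^ 2 := funext ff_eq
  rw [h]
  exact (zeta_cont.norm).pow 2

lemma ff_nn (u : ℝ) : 0 ≤ ff u := by
  rw [ff_eq]
  positivity

lemma ff_bd {u : ℝ} (hu : 0 ≤ u) : ff u ≤ 576 * (1 + u) ^ 4 := by
  rw [ff_eq]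
  exact z2_bound hu

lemma Xz_cont : Continuous Xz := zeta_cont.norm

lemma Xz_bd {t : ℝ} (ht : 0 ≤ t) : Xz t ^ 4 ≤ 331776 * (1 + t) ^ 8 := by
  have h := pow_le_pow_left₀ (norm_nonneg _) (zeta_cl_bound t ht) 4
  calc Xz t ^ 4 ≤ (24 * (1 + t) ^ 2) ^ 4 := h
    _ = 331776 * (1 + t) ^ 8 := by ring

lemma intpoly (κ N : ℕ) {δ B : ℝ} (hδ : 0 < δ) (F : ℝ → ℝ) (hF : Continuous F)
    (hB : ∀ t, 0 ≤ t → |F t| ≤ B * (1 + t) ^ N) :
    IntegrableOn (fun t => om κ δ t * F t) (Set.Ioi 0) := by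
  have h1 := (om_poly κ N hδ).const_mul B
  refine Integrable.mono' h1 ((om_cont κ _).mul hF).aestronglyMeasurable ?_
  refine (ae_restrict_iff' measurableSet_Ioi).mpr (Eventually.of_forall fun t ht => ?_)
  have ht0 : 0 < t := ht
  rw [Real.norm_eq_abs, abs_mul, abs_of_nonneg (om_nn κ hδ ht0.le)]
  have := mul_le_mul_of_nonneg_left (hB t ht0.le) (om_nn κ hδ ht0.le)
  linarith

lemma mB_eq (n : ℕ) (U : ℝ) : mB n 0 U =
    (volume : Measure (Fin n → ℝ)).restrict (Set.pi Set.univ fun _ => Set.Icc 0 U) := by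
  unfold mB
  rw [volume_pi, Measure.restrict_pi_pi]

instance (n : ℕ) (U : ℝ) : IsFiniteMeasure (mB n 0 U) := by
  unfold mB
  infer_instance

lemma box_ms (n : ℕ) (U : ℝ) : MeasurableSet (Set.pi Set.univ fun _ : Fin n => Set.Icc (0 : ℝ) U) :=
  MeasurableSet.univ_pi fun _ => measurableSet_Icc

lemma prod_bd {n : ℕ} {U t : ℝ} (hU : 0 ≤ U) (ht : 0 ≤ t) (c : Fin n → ℝ)
    (hc : ∀ j, c j ∈ Set.Icc 0 U) :
    ∏ j, ff (t + c j) ≤ (576 * (1 + U) ^ 4) ^ n * (1 + t) ^ (4 * n) := by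
  calc ∏ j, ff (t + c j) ≤ ∏ _j : Fin n, (576 * (1 + U) ^ 4 * (1 + t) ^ 4) := by
        refine Finset.prod_le_prod (fun j _ => ff_nn _) fun j _ => ?_
        have h1 := (hc j).1
        have h2 := (hc j).2
        refine (ff_bd (by linarith)).trans ?_
        have h3 : 1 + (t + c j) ≤ (1 + U) * (1 + t) := by nlinarith
        have h4 := pow_le_pow_left₀ (by linarith) h3 4
        calc 576 * (1 + (t + c j)) ^ 4 ≤ 576 * ((1 + U) * (1 + t)) ^ 4 := by linarith
          _ = _ := by ring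
    _ = _ := by
        rw [Finset.prod_const, Finset.card_univ, Fintype.card_fin, mul_pow, ← pow_mul]

lemma prod_cont {n : ℕ} : Continuous fun z : (Fin n → ℝ) × ℝ => ∏ j, ff (z.2 + z.1 j) := by
  refine continuous_finsetProd _ fun j _ => ff_cont.comp ?_
  exact continuous_snd.add ((continuous_apply j).comp continuous_fst)

lemma prod_nn {n : ℕ} (t : ℝ) (c : Fin n → ℝ) : 0 ≤ ∏ j, ff (t + c j) :=
  Finset.prod_nonneg fun j _ => ff_nn _

/-- the mean over one shift -/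
def hh (U t : ℝ) : ℝ := ∫ x in Set.Icc 0 U, ff (t + x)

lemma hh_eq {U : ℝ} (hU : 0 ≤ U) (t : ℝ) : hh U t = ∫ u in t..(t + U), ff u := by
  unfold hh
  rw [integral_Icc_eq_integral_Ioc, ← intervalIntegral.integral_of_le hU,
    intervalIntegral.integral_comp_add_left, add_zero]

lemma hh_nn (U t : ℝ) : 0 ≤ hh U t := setIntegral_nonneg measurableSet_Icc fun x _ => ff_nn _

lemma hh_crude {U t : ℝ} (hU : 0 ≤ U) (ht : 0 ≤ t) :
    hh U t ≤ U * (576 * (1 + U) ^ 4 * (1 + t) ^ 4) := by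
  rw [hh_eq hU]
  have h1 : ∫ u in t..(t + U), ff u ≤ ∫ _u in t..(t + U), (576 * (1 + U) ^ 4 * (1 + t) ^ 4) := by
    refine intervalIntegral.integral_mono_on (by linarith) (ff_cont.intervalIntegrable _ _)
      (continuous_const.intervalIntegrable _ _) fun u hu => ?_
    refine (ff_bd (ht.trans hu.1)).trans ?_
    have h3 : 1 + u ≤ (1 + U) * (1 + t) := by nlinarith [hu.2]
    have h4 := pow_le_pow_left₀ (by linarith [hu.1]) h3 4
    calc 576 * (1 + u) ^ 4 ≤ 576 * ((1 + U) * (1 + t)) ^ 4 := by linarith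
      _ = _ := by ring
  rw [intervalIntegral.integral_const, smul_eq_mul, add_sub_cancel_left] at h1
  exact h1

lemma hh_main {CS : ℝ} (hCS0 : 0 < CS) (hCS : ∀ T : ℝ, 2 ≤ T → ∫ u in (0:ℝ)..(2 * T), ff u ≤ CS * T * Real.log T)
    {A T U t : ℝ} (hA : 1 ≤ A) (hT : 8 + A ≤ T) (hTU : T ≤ U) (hUA : U ≤ A * T) (ht0 : 0 ≤ t)
    (ht : t ≤ 8 * T) : hh U t ≤ 18 * CS * U * Real.log T := by
  have hT0 : 0 < T := by linarith
  have hU0 : 0 ≤ U := by linarith
  have hL0 : 0 ≤ Real.log T := Real.log_nonneg (by linarith)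
  rw [hh_eq (by linarith)]
  have h1 : ∫ u in t..(t + U), ff u ≤ ∫ u in (0:ℝ)..(2 * (8 * T + U)), ff u := by
    refine intervalIntegral.integral_mono_interval ht0 (by linarith) (by linarith)
      (Eventually.of_forall fun u => ff_nn u) (ff_cont.intervalIntegrable _ _)
  have h2 := hCS (8 * T + U) (by linarith)
  have h3 : Real.log (8 * T + U) ≤ 2 * Real.log T := by
    calc Real.log (8 * T + U) ≤ Real.log (T * T) := by
          apply Real.log_le_log (by linarith)
          nlinarith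
      _ = _ := by rw [Real.log_mul hT0.ne' hT0.ne']; ring
  have h4 : 0 ≤ Real.log (8 * T + U) := Real.log_nonneg (by linarith)
  calc _ ≤ CS * (8 * T + U) * Real.log (8 * T + U) := h1.trans h2
    _ ≤ CS * (9 * U) * (2 * Real.log T) := by
        apply mul_le_mul _ h3 h4 (by positivity)
        apply mul_le_mul_of_nonneg_left (by linarith) hCS0.le
    _ = _ := by ring

end

end Pool.Agent.Y246.SX
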